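import Pool.Agent.H96.MC.Assemble

/-!
# The sharp exponential constant for multicolour Poisson matchings

Let `lam ∈ (0,∞)^q`, let `V ⊂ ℕ^q` be finite and not containing all unit vectors, and let `lam` be
in the interior of the cone generated by `V`.  Then there is one constant `a > 0` such that some
translation-invariant `V`-matching scheme has `P*(X > r) ≤ exp (-a r^d + o(r^d))` and every
translation-invariant `V`-matching scheme has `P*(X > r) ≥ exp (-a r^d - o(r^d))`, in every
dimension `d ≥ 1`.

The definitions (`cone`, `Scheme`, `IsPoisson`, `famSigma`, `ftype`, `fdiam`, `trF`, `Scheme.EPsi`,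
`Scheme.F`) are in `Pool/Agent/H96/MC/Defs.lean` (`cone`) and `Pool/Agent/H96/MC/Stmt.lean`.
-/

namespace Pool.Agent.Results.MP_5da387_pr.SharpTailConstant

open Pool.Agent.H96.MC MeasureTheory

/-- In every underconstrained setting `(d, q, lam, V)` there is a constant `a > 0` such that, for
every Borel set `B` of positive finite volume used to define the distribution function `F` of the
typical diameter and for every `ε > 0`: some translation-invariant `V`-matching scheme satisfies
`1 - F r ≤ exp (-(a - ε) r^d)` for all large `r`, and every translation-invariant `V`-matching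
scheme satisfies `1 - F r ≥ exp (-(a + ε) r^d)` for all large `r`. -/
theorem result (d q : ℕ) (lam : Fin q → ℝ) (V : Finset (Fin q → ℕ)) (hd : 1 ≤ d)
    (hlam : ∀ i, 0 < lam i) (hV : ∃ i, Pi.single i 1 ∉ V) (hint : lam ∈ interior (cone V)) :
    ∃ a : ℝ, 0 < a ∧
      (∃ S : Scheme V lam d, ∀ B : Set (Sp d), MeasurableSet B → 0 < volume B → volume B < ⊤ →
        ∀ ε > 0, ∀ᶠ r : ℝ in Filter.atTop, 1 - S.F B r ≤ Real.exp (-(a - ε) * r ^ d)) ∧
      (∀ S : Scheme V lam d, ∀ B : Set (Sp d), MeasurableSet B → 0 < volume B → volume B < ⊤ →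
        ∀ ε > 0, ∀ᶠ r : ℝ in Filter.atTop, Real.exp (-(a + ε) * r ^ d) ≤ 1 - S.F B r) :=
  Asm.m_MainTheorem d q lam V hd hlam hV hint

end Pool.Agent.Results.MP_5da387_pr.SharpTailConstant
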